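import Pool.Agent.LC5.Stmts

/-!
# Squad LC5, row GE5: every configuration is joined to a generic one
-/

set_option autoImplicit false

open Topology

namespace Pool.Agent.LC5.H34

open Pool.Agent.LCK Pool.Agent.LC5

theorem ge5 (par : PARStmt) (fpf : FPFStmt) (de5 : DE5Stmt) (gsi : GSIStmt) (loc : LOCStmt) :
    GE5Stmt := by
  intro l hl v hv
  obtain ⟨hp1, hp2⟩ := par 5 l hl
  obtain ⟨a, ha, hav⟩ := hp1 v hv.1
  obtain ⟨f, hf1, hf2, hf3⟩ := de5 l hl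
  have hdense : Dense {x | f x ≠ 0} := (fpf _ f hf1 hf2).2
  have hc : ContinuousAt (V l) a := (hp2 a ha).2.2
  have hloc : ∀ᶠ v' in 𝓝 (V l a), v' ∈ Conf l → JoinedIn (Conf l) v v' := by
    rw [hav]
    exact loc 5 l hl v hv
  have hev : ∀ᶠ a' in 𝓝 a, V l a' ∈ Conf l → JoinedIn (Conf l) v (V l a') := hc.eventually hloc
  obtain ⟨a', h1, h2⟩ := hdense.inter_nhds_nonempty hev
  obtain ⟨h3, h4⟩ := hf3 a' h1
  have h5 : V l a' ∈ Conf l := ⟨(hp2 a' h3).2.1, gsi _ h4⟩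
  exact ⟨V l a', h5, h2 h5, h4⟩

end Pool.Agent.LC5.H34
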