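import Pool.Agent.LC5.Stmts

/-!
# Squad LC5, row STC: the straight chain
-/

set_option autoImplicit false

open Topology

namespace Pool.Agent.LC5.H34

open Pool.Agent.LCK Pool.Agent.LC5

/-- the first basis vector -/
noncomputable def e0 : E3 := EuclideanSpace.single 0 (1 : ℝ)

theorem seg_e0 (a b : ℝ) (hab : a ≤ b) (x : E3) (hx : x ∈ segment ℝ (a • e0) (b • e0)) :
    ∃ c : ℝ, a ≤ c ∧ c ≤ b ∧ x = c • e0 := by
  rw [segment_eq_image] at hx
  obtain ⟨t, ⟨h0, h1⟩, rfl⟩ := hx
  refine ⟨(1 - t) * a + t * b, by nlinarith, by nlinarith, ?_⟩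
  simp only [smul_smul, ← add_smul]

theorem e0_inj (c c' : ℝ) (h : c • e0 = c' • e0) : c = c' := by
  have := congrArg (fun v : E3 => v 0) h
  simpa [e0] using this

theorem norm_e0 : ‖e0‖ = 1 := by simp [e0]

/-- partial sums -/
noncomputable def L {n : ℕ} (l : Fin n → ℝ) (k : ℕ) : ℝ :=
  ∑ j : Fin n, if (j : ℕ) < k then l j else 0

theorem L_succ {n : ℕ} (l : Fin n → ℝ) (k : Fin n) : L l ((k : ℕ) + 1) = L l k + l k := by
  unfold L
  have h : ∀ j : Fin n, (if (j : ℕ) < (k : ℕ) + 1 then l j else 0) =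
      (if (j : ℕ) < (k : ℕ) then l j else 0) + (if j = k then l j else 0) := by
    intro j
    by_cases h1 : (j : ℕ) < (k : ℕ)
    · have h2 : ¬ j = k := fun h => by rw [h] at h1; omega
      rw [if_pos h1, if_pos (by omega), if_neg h2, add_zero]
    · by_cases h2 : j = k
      · subst h2
        rw [if_pos (by omega), if_neg h1, if_pos rfl, zero_add]
      · have h3 : (j : ℕ) ≠ (k : ℕ) := fun h => h2 (Fin.ext h)
        rw [if_neg h1, if_neg (by omega), if_neg h2, add_zero]
  rw [Finset.sum_congr rfl (fun j _ => h j), Finset.sum_add_distrib]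
  simp

theorem L_mono {n : ℕ} (l : Fin n → ℝ) (hl : ∀ k, 0 < l k) (a b : ℕ) (hab : a ≤ b) :
    L l a ≤ L l b := by
  unfold L
  apply Finset.sum_le_sum
  intro j _
  by_cases h1 : (j : ℕ) < a
  · rw [if_pos h1, if_pos (by omega)]
  · rw [if_neg h1]
    split_ifs
    · exact (hl j).le
    · exact le_rfl

theorem stc : STCStmt := by
  intro l hl
  refine ⟨fun k => L l k • e0, ⟨?_, ?_⟩, ?_⟩
  · intro k
    rw [dist_eq_norm, ← sub_smul, norm_smul, norm_e0, mul_one]
    have h1 : L l (k.succ : ℕ) = L l (k.castSucc : ℕ) + l k := by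
      rw [Fin.val_succ, Fin.val_castSucc]
      exact L_succ l k
    rw [h1, Real.norm_eq_abs]
    have : L l (k.castSucc : ℕ) - (L l (k.castSucc : ℕ) + l k) = - l k := by ring
    rw [this, abs_neg, abs_of_pos (hl k)]
  · intro i j hij
    have hij' : (i : ℕ) < (j : ℕ) := hij
    have hi : L l (i.castSucc : ℕ) ≤ L l (i.succ : ℕ) := L_mono l hl _ _ (by simp)
    have hj : L l (j.castSucc : ℕ) ≤ L l (j.succ : ℕ) := L_mono l hl _ _ (by simp)
    have key : ∀ x ∈ segment ℝ (L l (i.castSucc : ℕ) • e0) (L l (i.succ : ℕ) • e0) ∩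
        segment ℝ (L l (j.castSucc : ℕ) • e0) (L l (j.succ : ℕ) • e0),
        ∃ c : ℝ, x = c • e0 ∧ c ≤ L l (i.succ : ℕ) ∧ L l (j.castSucc : ℕ) ≤ c := by
      rintro x ⟨h1, h2⟩
      obtain ⟨c, -, c2, c3⟩ := seg_e0 _ _ hi x h1
      obtain ⟨c', c4, -, c6⟩ := seg_e0 _ _ hj x h2
      have : c = c' := e0_inj _ _ (c3.symm.trans c6)
      exact ⟨c, c3, c2, this ▸ c4⟩
    split_ifs with h
    · have hjc : (j.castSucc : ℕ) = (i.succ : ℕ) := by
        rw [Fin.val_castSucc, Fin.val_succ]; exact h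
      apply Set.Subset.antisymm
      · intro x hx
        obtain ⟨c, h1, h2, h3⟩ := key x hx
        rw [hjc] at h3
        rw [Set.mem_singleton_iff, h1, le_antisymm h2 h3]
      · intro x hx
        rw [Set.mem_singleton_iff] at hx
        subst hx
        refine ⟨right_mem_segment ℝ _ _, ?_⟩
        show L l (i.succ : ℕ) • e0 ∈ segment ℝ (L l (j.castSucc : ℕ) • e0) (L l (j.succ : ℕ) • e0)
        rw [hjc]
        exact left_mem_segment ℝ _ _
    · rw [Set.eq_empty_iff_forall_notMem]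
      intro x hx
      obtain ⟨c, h1, h2, h3⟩ := key x hx
      have h4 : L l ((i : ℕ) + 1 + 1) ≤ L l (j.castSucc : ℕ) := by
        apply L_mono l hl
        rw [Fin.val_castSucc]
        omega
      have h5 : (i : ℕ) + 1 < 5 := by
        have := j.2
        omega
      have h6 := L_succ l ⟨(i : ℕ) + 1, h5⟩
      have h7 := hl ⟨(i : ℕ) + 1, h5⟩
      rw [Fin.val_succ] at h2
      simp only at h6
      linarith
  · simp [dt, det3, e0]

end Pool.Agent.LC5.H34
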