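import Pool.Agent.LC5.Stmts

/-!
# Squad LC5, rows U2, U3: two and three links
-/

set_option autoImplicit false

open Topology

namespace Pool.Agent.LC5.H34

open Pool.Agent.LCK Pool.Agent.LC5

theorem simple2 (v : Fin 3 → E3) : Simple v ↔ Hi (v 0) (v 1) (v 2) := by
  constructor
  · intro h
    have := h 0 1 (by decide)
    simpa [Hi] using this
  · intro h i j hij
    fin_cases i <;> fin_cases j
    · exact absurd hij (by decide)
    · simpa [Hi] using h
    · exact absurd hij (by decide)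
    · exact absurd hij (by decide)

theorem simple3 (v : Fin 4 → E3) : Simple v ↔
    Hi (v 0) (v 1) (v 2) ∧ Hi (v 1) (v 2) (v 3) ∧ Dj (v 0) (v 1) (v 2) (v 3) := by
  constructor
  · intro h
    have h1 := h 0 1 (by decide)
    have h2 := h 1 2 (by decide)
    have h3 := h 0 2 (by decide)
    exact ⟨by simpa [Hi] using h1, by simpa [Hi] using h2, by simpa [Dj] using h3⟩
  · rintro ⟨h1, h2, h3⟩ i j hij
    fin_cases i <;> fin_cases j
    · exact absurd hij (by decide)
    · simpa [Hi] using h1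
    · simpa [Dj] using h3
    · exact absurd hij (by decide)
    · exact absurd hij (by decide)
    · simpa [Hi] using h2
    · exact absurd hij (by decide)
    · exact absurd hij (by decide)
    · exact absurd hij (by decide)

/-- a point of the segment from `b + c • d` to `b` -/
theorem seg_ray (b d : E3) (c : ℝ) (hc : 0 ≤ c) (x : E3) (hx : x ∈ segment ℝ (b + c • d) b) :
    ∃ k : ℝ, 0 ≤ k ∧ x = b + k • d := by
  rw [segment_eq_image] at hx
  obtain ⟨t, ⟨h0, h1⟩, rfl⟩ := hx
  refine ⟨(1 - t) * c, mul_nonneg (by linarith) hc, ?_⟩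
  module

theorem seg_pt (a b : E3) (x : E3) (hx : x ∈ segment ℝ a b) :
    ∃ r : ℝ, 0 ≤ r ∧ r ≤ 1 ∧ x = a + r • (b - a) := by
  rw [segment_eq_image] at hx
  obtain ⟨t, ⟨h0, h1⟩, rfl⟩ := hx
  refine ⟨t, h0, h1, ?_⟩
  module

/-- consecutive links are not folded -/
theorem hi_not (a b c : E3) (hab : a ≠ b) (h : Hi a b c) (k : ℝ) (hk : 0 ≤ k) :
    a - b ≠ k • (c - b) := by
  intro h1
  have hs : 0 < 1 + k := by linarith
  have hp : b + (1 / (1 + k)) • (a - b) ∈ segment ℝ a b ∩ segment ℝ b c := by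
    constructor
    · rw [segment_eq_image]
      refine ⟨k / (1 + k), ⟨by positivity, by rw [div_le_one hs]; linarith⟩, ?_⟩
      have : 1 - k / (1 + k) = 1 / (1 + k) := by field_simp; ring
      simp only [this]
      have h2 : k / (1 + k) = 1 - 1 / (1 + k) := by field_simp; ring
      rw [h2]
      module
    · rw [segment_eq_image]
      refine ⟨k / (1 + k), ⟨by positivity, by rw [div_le_one hs]; linarith⟩, ?_⟩
      simp only [h1, smul_smul]
      have h2 : 1 / (1 + k) * k = k / (1 + k) := by ring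
      rw [h2]
      module
  have h2 : segment ℝ a b ∩ segment ℝ b c = {b} := h
  rw [h2, Set.mem_singleton_iff] at hp
  have h3 : (1 / (1 + k)) • (a - b) = 0 := by
    have := congrArg (fun x => x - b) hp
    simpa using this
  rcases smul_eq_zero.1 h3 with h4 | h4
  · have : (0 : ℝ) < 1 / (1 + k) := by positivity
    linarith
  · exact hab (sub_eq_zero.1 h4)

/-- the direction of link 0 -/
noncomputable def D (u w : E3) (t : ℝ) : E3 := (1 - t) • u - t • w

/-- the hypothesis: `u` is not a nonnegative multiple of `w` -/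
theorem D_ne (u w : E3) (hw : w ≠ 0) (hu : ∀ k : ℝ, 0 ≤ k → u ≠ k • w) (t : ℝ) (h0 : 0 ≤ t)
    (h1 : t ≤ 1) : D u w t ≠ 0 := by
  intro h
  unfold D at h
  rcases eq_or_lt_of_le h1 with h2 | h2
  · subst h2
    apply hw
    simpa using h
  · have h3 : 0 < 1 - t := by linarith
    apply hu (t / (1 - t)) (by positivity)
    have h4 : (1 - t) • u = t • w := sub_eq_zero.1 h
    have h5 : u = (1 - t)⁻¹ • ((1 - t) • u) := by rw [smul_smul, inv_mul_cancel₀ h3.ne', one_smul]
    rw [h5, h4, smul_smul, div_eq_inv_mul]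

/-- the moving chain -/
noncomputable def mv {n : ℕ} (v : Fin (n + 3) → E3) (e : ℝ) (t : ℝ) : Fin (n + 3) → E3 :=
  Function.update v 0 (v 1 + (e / ‖D (v 0 - v 1) (v 2 - v 1) t‖) • D (v 0 - v 1) (v 2 - v 1) t)

theorem mv_joined {n : ℕ} (v : Fin (n + 3) → E3) (l0 l1 : ℝ) (h0 : 0 < l0)
    (h1 : 0 < l1) (hd0 : dist (v 0) (v 1) = l0) (hd1 : dist (v 1) (v 2) = l1)
    (hu : ∀ k : ℝ, 0 ≤ k → v 0 - v 1 ≠ k • (v 2 - v 1)) (S : Set (Fin (n + 3) → E3))
    (hS : ∀ t : ℝ, 0 ≤ t → t ≤ 1 → mv v l0 t ∈ S) :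
    ∃ v' ∈ S, JoinedIn S v v' ∧ v' 0 = v' 1 - (l0 / l1) • (v' 2 - v' 1) := by
  have hw : v 2 - v 1 ≠ 0 := by
    intro h
    rw [dist_comm, dist_eq_norm, h, norm_zero] at hd1
    linarith
  have hD : ∀ t : ℝ, 0 ≤ t → t ≤ 1 → D (v 0 - v 1) (v 2 - v 1) t ≠ 0 := fun t a b =>
    D_ne _ _ hw hu t a b
  have hne1 : (1 : Fin (n + 3)) ≠ 0 := by
    intro h
    have := congrArg Fin.val h
    simp at this
  have hne2 : (2 : Fin (n + 3)) ≠ 0 := by
    intro h
    have := congrArg Fin.val h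
    rw [Fin.val_zero] at this
    change 2 % (n + 3) = 0 at this
    rw [Nat.mod_eq_of_lt (by omega)] at this
    omega
  refine ⟨mv v l0 1, hS 1 zero_le_one le_rfl, ?_, ?_⟩
  · refine JoinedIn.ofLine (f := mv v l0) ?_ ?_ rfl ?_
    · rw [continuousOn_pi]
      intro i
      by_cases hi : i = 0
      · subst hi
        have : (fun t => mv v l0 t 0) = fun t => v 1 + (l0 / ‖D (v 0 - v 1) (v 2 - v 1) t‖) •
            D (v 0 - v 1) (v 2 - v 1) t := by
          funext t
          exact Function.update_self _ _ _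
        rw [this]
        have hcD : Continuous (fun t => D (v 0 - v 1) (v 2 - v 1) t) := by
          unfold D
          fun_prop
        have hq : ContinuousOn (fun t => l0 / ‖D (v 0 - v 1) (v 2 - v 1) t‖) unitInterval := by
          refine ContinuousOn.div continuousOn_const hcD.norm.continuousOn ?_
          intro t ht
          exact norm_ne_zero_iff.2 (hD t ht.1 ht.2)
        have hq2 : ContinuousOn (fun t => (l0 / ‖D (v 0 - v 1) (v 2 - v 1) t‖) •
            D (v 0 - v 1) (v 2 - v 1) t) unitInterval := hq.smul hcD.continuousOn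
        exact continuousOn_const.add hq2
      · have : (fun t => mv v l0 t i) = fun _ => v i := by
          funext t
          exact Function.update_of_ne hi _ _
        rw [this]
        exact continuousOn_const
    · have h2 : D (v 0 - v 1) (v 2 - v 1) 0 = v 0 - v 1 := by simp [D]
      have h3 : ‖v 0 - v 1‖ = l0 := by rw [← dist_eq_norm]; exact hd0
      unfold mv
      rw [h2, h3, div_self h0.ne', one_smul, add_sub_cancel]
      exact Function.update_eq_self 0 v
    · rintro x ⟨t, ht, rfl⟩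
      exact hS t ht.1 ht.2
  · have e0 : mv v l0 1 0 = v 1 + (l0 / ‖D (v 0 - v 1) (v 2 - v 1) 1‖) •
        D (v 0 - v 1) (v 2 - v 1) 1 := Function.update_self _ _ _
    have e1 : mv v l0 1 1 = v 1 := Function.update_of_ne hne1 _ _
    have e2 : mv v l0 1 2 = v 2 := Function.update_of_ne hne2 _ _
    rw [e0, e1, e2]
    have h2 : D (v 0 - v 1) (v 2 - v 1) 1 = -(v 2 - v 1) := by simp [D]
    have h3 : ‖v 2 - v 1‖ = l1 := by rw [← dist_eq_norm, dist_comm]; exact hd1
    rw [h2, norm_neg, h3, smul_neg]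
    exact (sub_eq_add_neg _ _).symm

theorem mv_dist {n : ℕ} (v : Fin (n + 3) → E3) (l0 : ℝ) (h0 : 0 < l0)
    (hw : v 2 - v 1 ≠ 0) (hu : ∀ k : ℝ, 0 ≤ k → v 0 - v 1 ≠ k • (v 2 - v 1))
    (t : ℝ) (ht0 : 0 ≤ t) (ht1 : t ≤ 1) :
    dist (v 1 + (l0 / ‖D (v 0 - v 1) (v 2 - v 1) t‖) • D (v 0 - v 1) (v 2 - v 1) t) (v 1) = l0 := by
  have hD := D_ne _ _ hw hu t ht0 ht1
  have hn : 0 < ‖D (v 0 - v 1) (v 2 - v 1) t‖ := norm_pos_iff.2 hD
  rw [dist_eq_norm, add_sub_cancel_left, norm_smul, Real.norm_eq_abs, abs_of_pos (by positivity)]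
  field_simp

theorem mv_hi {n : ℕ} (v : Fin (n + 3) → E3) (l0 : ℝ) (h0 : 0 < l0)
    (hw : v 2 - v 1 ≠ 0) (hu : ∀ k : ℝ, 0 ≤ k → v 0 - v 1 ≠ k • (v 2 - v 1))
    (t : ℝ) (ht0 : 0 ≤ t) (ht1 : t ≤ 1) :
    Hi (v 1 + (l0 / ‖D (v 0 - v 1) (v 2 - v 1) t‖) • D (v 0 - v 1) (v 2 - v 1) t) (v 1) (v 2) := by
  unfold Hi
  apply Set.Subset.antisymm
  · rintro x ⟨hx1, hx2⟩
    obtain ⟨k, hk, rfl⟩ := seg_ray _ _ _ (by positivity) x hx1
    obtain ⟨r, hr0, hr1, hr⟩ := seg_pt _ _ _ hx2
    have h1 : k • D (v 0 - v 1) (v 2 - v 1) t = r • (v 2 - v 1) := add_left_cancel hr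
    rw [Set.mem_singleton_iff]
    rcases eq_or_lt_of_le hk with h2 | h2
    · rw [← h2, zero_smul, add_zero]
    · exfalso
      unfold D at h1
      have h3 : (k * (1 - t)) • (v 0 - v 1) = (r + k * t) • (v 2 - v 1) := by
        have h4 : (k * (1 - t)) • (v 0 - v 1) - (k * t) • (v 2 - v 1) = r • (v 2 - v 1) := by
          rw [← h1]; module
        rw [add_smul, ← h4]
        module
      rcases eq_or_lt_of_le ht1 with h5 | h5
      · subst h5
        rw [sub_self, mul_zero, zero_smul, mul_one] at h3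
        rcases smul_eq_zero.1 h3.symm with h6 | h6
        · linarith
        · exact hw h6
      · have h6 : 0 < k * (1 - t) := mul_pos h2 (by linarith)
        apply hu ((r + k * t) / (k * (1 - t))) (by positivity)
        have h7 : v 0 - v 1 = (k * (1 - t))⁻¹ • ((k * (1 - t)) • (v 0 - v 1)) := by
          rw [smul_smul, inv_mul_cancel₀ h6.ne', one_smul]
        rw [h7, h3, smul_smul, div_eq_inv_mul]
  · intro x hx
    rw [Set.mem_singleton_iff] at hx
    subst hx
    exact ⟨right_mem_segment ℝ _ _, left_mem_segment ℝ _ _⟩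

theorem u2 (bas : BASStmt) (mrg : MRGStmt) : U2Stmt := by
  intro l hl
  refine mrg 0 l hl ?_ ?_
  · intro v hv
    obtain ⟨hd, hs⟩ := hv
    have hd0 : dist (v 0) (v 1) = l 0 := hd 0
    have hd1 : dist (v 1) (v 2) = l 1 := hd 1
    have hw : v 2 - v 1 ≠ 0 := by
      intro h
      rw [dist_comm, dist_eq_norm, h, norm_zero] at hd1
      linarith [hl 1]
    have hab : v 0 ≠ v 1 := by
      intro h
      rw [h, dist_self] at hd0
      linarith [hl 0]
    have hu := hi_not _ _ _ hab ((simple2 v).1 hs)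
    refine mv_joined v (l 0) (l 1) (hl 0) (hl 1) hd0 hd1 hu (Conf l) ?_
    intro t ht0 ht1
    refine ⟨?_, ?_⟩
    · intro k
      fin_cases k
      · exact mv_dist v (l 0) (hl 0) hw hu t ht0 ht1
      · exact hd1
    · rw [simple2]
      exact mv_hi v (l 0) (hl 0) hw hu t ht0 ht1
  · have h1 : mg l = ap (fun i : Fin 0 => i.elim0) (l 0 + l 1) := by
      funext k
      fin_cases k
      rfl
    rw [h1]
    exact (bas _).2 _ (by linarith [hl 0, hl 1])

theorem u3 (ge3 : GE3Stmt) (mrg : MRGStmt) (u2 : U2Stmt) : U3Stmt := by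
  intro l hl
  refine mrg 1 l hl ?_ ?_
  · intro v' hv'
    obtain ⟨v, hv, hj, hdet⟩ := ge3 l hl v' hv'
    have hv2 := hv
    obtain ⟨hd, hs⟩ := hv2
    have hd0 : dist (v 0) (v 1) = l 0 := hd 0
    have hd1 : dist (v 1) (v 2) = l 1 := hd 1
    have hd2 : dist (v 2) (v 3) = l 2 := hd 2
    have hw : v 2 - v 1 ≠ 0 := by
      intro h
      rw [dist_comm, dist_eq_norm, h, norm_zero] at hd1
      linarith [hl 1]
    have hab : v 0 ≠ v 1 := by
      intro h
      rw [h, dist_self] at hd0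
      linarith [hl 0]
    obtain ⟨s1, s2, s3⟩ := (simple3 v).1 hs
    have hu := hi_not _ _ _ hab s1
    obtain ⟨v'', h1, h2, h3⟩ := mv_joined v (l 0) (l 1) (hl 0) (hl 1) hd0 hd1 hu (Conf l) (by
      intro t ht0 ht1
      refine ⟨?_, ?_⟩
      · intro k
        fin_cases k
        · exact mv_dist v (l 0) (hl 0) hw hu t ht0 ht1
        · exact hd1
        · exact hd2
      · rw [simple3]
        refine ⟨mv_hi v (l 0) (hl 0) hw hu t ht0 ht1, s2, ?_⟩
        show segment ℝ (v 1 + (l 0 / ‖D (v 0 - v 1) (v 2 - v 1) t‖) • D (v 0 - v 1) (v 2 - v 1) t)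
          (v 1) ∩ segment ℝ (v 2) (v 3) = ∅
        rw [Set.eq_empty_iff_forall_notMem]
        rintro x ⟨hx1, hx2⟩
        obtain ⟨k, hk, rfl⟩ := seg_ray _ _ _ (div_nonneg (hl 0).le (norm_nonneg _)) x hx1
        obtain ⟨r, hr0, hr1, hr⟩ := seg_pt _ _ _ hx2
        have c : ∀ i : Fin 3, v 1 i + k * ((1 - t) * (v 0 i - v 1 i) - t * (v 2 i - v 1 i)) =
            v 2 i + r * (v 3 i - v 2 i) := by
          intro i
          have := congrArg (fun x : E3 => x i) hr
          simpa [D] using this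
        have c0 := c 0
        have c1 := c 1
        have c2 := c 2
        -- the coefficient of `v 3 - v 1` vanishes
        have hr' : r * det3 (v 3 - v 1) (v 2 - v 1) (v 0 - v 1) = 0 := by
          simp only [det3, PiLp.sub_apply]
          linear_combination
            (-((v 2 1 - v 1 1) * (v 0 2 - v 1 2) - (v 2 2 - v 1 2) * (v 0 1 - v 1 1))) * c0 +
            ((v 2 0 - v 1 0) * (v 0 2 - v 1 2) - (v 2 2 - v 1 2) * (v 0 0 - v 1 0)) * c1 -
            ((v 2 0 - v 1 0) * (v 0 1 - v 1 1) - (v 2 1 - v 1 1) * (v 0 0 - v 1 0)) * c2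
        have hx' : (k * t + 1 - r) * det3 (v 3 - v 1) (v 2 - v 1) (v 0 - v 1) = 0 := by
          simp only [det3, PiLp.sub_apply]
          linear_combination
            ((v 3 1 - v 1 1) * (v 0 2 - v 1 2) - (v 3 2 - v 1 2) * (v 0 1 - v 1 1)) * c0 -
            ((v 3 0 - v 1 0) * (v 0 2 - v 1 2) - (v 3 2 - v 1 2) * (v 0 0 - v 1 0)) * c1 +
            ((v 3 0 - v 1 0) * (v 0 1 - v 1 1) - (v 3 1 - v 1 1) * (v 0 0 - v 1 0)) * c2
        have hr2 : r = 0 := (mul_eq_zero.1 hr').resolve_right hdet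
        have hx2 : k * t + 1 - r = 0 := (mul_eq_zero.1 hx').resolve_right hdet
        have : 0 ≤ k * t := mul_nonneg hk ht0
        linarith)
    exact ⟨v'', h1, hj.trans h2, h3⟩
  · refine u2 _ ?_
    intro k
    fin_cases k
    · show 0 < l 0 + l 1
      linarith [hl 0, hl 1]
    · exact hl 2

end Pool.Agent.LC5.H34
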